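import Pool.Agent.W223.VD.Stms

/-!
VD-TR (project VD of helper223): the radicals of the values and the truncated counting function.
-/

set_option autoImplicit false

namespace Pool.Agent.W598.VD.TR

open Polynomial IntermediateField IsDedekindDomain NumberField
open Pool.Agent.H813R3.Voj (value rho mahler)
open Pool.Agent.W223.VD

variable {K : Type} [Field K] [NumberField K]

lemma log_rho (S : Finset ℕ) (n : ℤ) :
    Real.log (rho S n : ℝ) = ∑ p ∈ n.natAbs.primeFactors \ S, Real.log p := by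
  unfold Pool.Agent.H813R3.Voj.rho
  push_cast
  rw [Real.log_prod]
  intro p hp
  rw [Finset.mem_sdiff] at hp
  exact_mod_cast (Nat.prime_of_mem_primeFactors hp.1).ne_zero

/-- coprime integers do not lie in the same prime -/
lemma not_both (v : HeightOneSpectrum (𝓞 K)) (a b : ℤ) (h : IsCoprime a b)
    (ha : (a : 𝓞 K) ∈ v.asIdeal) (hb : (b : 𝓞 K) ∈ v.asIdeal) : False := by
  obtain ⟨x, y, hxy⟩ := h
  apply v.isPrime.ne_top
  rw [Ideal.eq_top_iff_one]
  have h1 : (1 : 𝓞 K) = (x : 𝓞 K) * (a : 𝓞 K) + (y : 𝓞 K) * (b : 𝓞 K) := by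
    exact_mod_cast hxy.symm
  rw [h1]
  exact v.asIdeal.add_mem (v.asIdeal.mul_mem_left _ ha) (v.asIdeal.mul_mem_left _ hb)

lemma dvd_of_mem (v : HeightOneSpectrum (𝓞 K)) (p : ℕ) (hp : p.Prime)
    (hpv : (p : 𝓞 K) ∈ v.asIdeal) (d : ℤ) (hd : (d : 𝓞 K) ∈ v.asIdeal) : (p : ℤ) ∣ d := by
  by_contra h
  have h1 : IsCoprime (p : ℤ) d := (Nat.prime_iff_prime_int.1 hp).irreducible.coprime_iff_not_dvd.2 h
  exact not_both v _ _ h1 (by exact_mod_cast hpv) hd

lemma eq_of_mem (v : HeightOneSpectrum (𝓞 K)) (p q : ℕ) (hp : p.Prime) (hq : q.Prime)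
    (hpv : (p : 𝓞 K) ∈ v.asIdeal) (hqv : (q : 𝓞 K) ∈ v.asIdeal) : p = q := by
  have h := dvd_of_mem v p hp hpv (q : ℤ) (by exact_mod_cast hqv)
  exact (Nat.prime_dvd_prime_iff_eq hp hq).1 (by exact_mod_cast h)

lemma log_le (v : HeightOneSpectrum (𝓞 K)) (p : ℕ) (hp : p.Prime)
    (hpv : (p : 𝓞 K) ∈ v.asIdeal) : Real.log p ≤ Real.log (Ideal.absNorm v.asIdeal) := by
  have h1 := dvd_of_mem v p hp hpv (Ideal.absNorm v.asIdeal) (by exact_mod_cast Ideal.absNorm_mem _)
  have h2 : Ideal.absNorm v.asIdeal ≠ 0 := by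
    rw [Ne, Ideal.absNorm_eq_zero_iff]
    exact v.ne_bot
  have h3 : p ≤ Ideal.absNorm v.asIdeal := Nat.le_of_dvd (Nat.pos_of_ne_zero h2) (by exact_mod_cast h1)
  exact Real.log_le_log (by exact_mod_cast hp.pos) (by exact_mod_cast h3)

lemma L_ne_zero (x : K) (f : ℤ[X]) (P : ℤ × ℤ) (hx : aeval x f = 0) (hv : value f P ≠ 0) :
    (P.1 : K) - x * (P.2 : K) ≠ 0 := by
  intro h
  apply hv
  have h1 : ((value f P : ℤ) : K) = (P.2 : K) ^ f.natDegree * aeval x f := by
    rw [aeval_eq_sum_range]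
    unfold value
    push_cast
    rw [Finset.mul_sum]
    refine Finset.sum_congr rfl fun i hi => ?_
    rw [Finset.mem_range] at hi
    rw [sub_eq_zero.1 h, mul_pow, zsmul_eq_mul]
    have h2 : (P.2 : K) ^ f.natDegree = (P.2 : K) ^ i * (P.2 : K) ^ (f.natDegree - i) := by
      rw [← pow_add]
      congr 1
      omega
    rw [h2]
    ring
  rw [hx, mul_zero] at h1
  exact_mod_cast h1

lemma finite_support (x y : K) (hy : y ≠ 0) :
    {v : HeightOneSpectrum (𝓞 K) | v.valuation K y < max (v.valuation K x) 1}.Finite := by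
  refine ((HeightOneSpectrum.Support.finite (𝓞 K) x).union
    (HeightOneSpectrum.Support.finite (𝓞 K) y⁻¹)).subset ?_
  intro v hv
  rw [Set.mem_union]
  by_contra! hcon
  obtain ⟨h1, h2⟩ := hcon
  simp only [HeightOneSpectrum.Support, Set.mem_ofPred_eq, not_lt] at h1 h2 hv
  rw [max_eq_right h1] at hv
  rw [map_inv₀] at h2
  have h3 : v.valuation K y ≠ 0 := (Valuation.ne_zero_iff _).2 hy
  have h4 := (inv_le_one₀ (zero_lt_iff.2 h3)).1 h2
  exact absurd hv (not_lt.2 h4)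

/-- two of the points cannot be close to `x` at the same prime -/
lemma two (v : HeightOneSpectrum (𝓞 K)) (x : K) (P Q : ℤ × ℤ)
    (h1 : v.valuation K ((P.1 : K) - x * (P.2 : K)) < max (v.valuation K x) 1)
    (h2 : v.valuation K ((Q.1 : K) - x * (Q.2 : K)) < max (v.valuation K x) 1) :
    ((P.1 * Q.2 - Q.1 * P.2 : ℤ) : 𝓞 K) ∈ v.asIdeal := by
  set M := max (v.valuation K x) 1 with hM
  have hint : ∀ a : ℤ, v.valuation K (a : K) ≤ 1 := by
    intro a
    have := v.valuation_le_one (K := K) (a : 𝓞 K)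
    simpa using this
  have hM0 : (0 : WithZero (Multiplicative ℤ)) < M := lt_of_lt_of_le zero_lt_one (le_max_right _ _)
  have hlt : ∀ a b : ℤ, v.valuation K ((a : K) * ((P.1 : K) - x * (P.2 : K)) -
      (b : K) * ((Q.1 : K) - x * (Q.2 : K))) < M := by
    intro a b
    apply lt_of_le_of_lt (Valuation.map_sub _ _ _)
    rw [max_lt_iff, map_mul, map_mul]
    exact ⟨lt_of_le_of_lt (mul_le_of_le_one_left' (hint a)) h1,
      lt_of_le_of_lt (mul_le_of_le_one_left' (hint b)) h2⟩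
  have hd : v.valuation K ((P.1 * Q.2 - Q.1 * P.2 : ℤ) : K) < M := by
    have := hlt Q.2 P.2
    convert this using 2
    push_cast
    ring
  have hxd : v.valuation K x * v.valuation K ((P.1 * Q.2 - Q.1 * P.2 : ℤ) : K) < M := by
    rw [← map_mul]
    have := hlt Q.1 P.1
    convert this using 2
    push_cast
    ring
  rw [← HeightOneSpectrum.valuation_lt_one_iff_mem (K := K)]
  have h3 : algebraMap (𝓞 K) K ((P.1 * Q.2 - Q.1 * P.2 : ℤ) : 𝓞 K) =
      ((P.1 * Q.2 - Q.1 * P.2 : ℤ) : K) := by simp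
  change v.valuation K (algebraMap (𝓞 K) K ((P.1 * Q.2 - Q.1 * P.2 : ℤ) : 𝓞 K)) < 1
  rw [h3]
  by_contra! hge
  rcases le_total (v.valuation K x) 1 with hx | hx
  · have hM1 : M = 1 := max_eq_right hx
    rw [hM1] at hd
    exact absurd hd (not_lt.2 hge)
  · have hM1 : M = v.valuation K x := max_eq_left hx
    rw [hM1] at hxd
    exact absurd hxd (not_lt.2 (le_mul_of_one_le_right' hge))

theorem t (hGL : StmtGL) : StmtTR := by
  intro K _ _ q S S' P x f hx hf hdeg hxf hP hSS hdet hS' hval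
  classical
  -- the primes
  have hex : ∀ (j : Fin q) (p : ℕ), ∃ v : HeightOneSpectrum (𝓞 K),
      p.Prime → (p : ℤ) ∣ value f (P j) → (p : 𝓞 K) ∈ v.asIdeal ∧
      v.valuation K (((P j).1 : K) - x * ((P j).2 : K)) < max (v.valuation K x) 1 := by
    intro j p
    by_cases hp : p.Prime ∧ (p : ℤ) ∣ value f (P j)
    · obtain ⟨v, hv⟩ := hGL K x f (P j) p hx hf hdeg hxf (hP j) hp.1 hp.2
      exact ⟨v, fun _ _ => hv⟩
    · have : Nonempty (HeightOneSpectrum (𝓞 K)) := by
        obtain ⟨I, hI, hI'⟩ := Ring.not_isField_iff_exists_prime.1 (RingOfIntegers.not_isField K)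
        exact ⟨⟨I, hI', hI⟩⟩
      exact ⟨this.some, fun h1 h2 => absurd ⟨h1, h2⟩ hp⟩
  choose V hV using hex
  set T : Finset ((_ : Fin q) × ℕ) := Finset.univ.sigma fun j => (value f (P j)).natAbs.primeFactors \ S'
    with hT
  have hTmem : ∀ a ∈ T, a.2.Prime ∧ (a.2 : ℤ) ∣ value f (P a.1) ∧ a.2 ∉ S' := by
    intro a ha
    rw [hT, Finset.mem_sigma, Finset.mem_sdiff] at ha
    refine ⟨Nat.prime_of_mem_primeFactors ha.2.1, ?_, ha.2.2⟩
    exact Int.natCast_dvd.2 (Nat.dvd_of_mem_primeFactors ha.2.1)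
  have hVmem : ∀ a ∈ T, (a.2 : 𝓞 K) ∈ (V a.1 a.2).asIdeal ∧
      (V a.1 a.2).valuation K (((P a.1).1 : K) - x * ((P a.1).2 : K)) <
        max ((V a.1 a.2).valuation K x) 1 := by
    intro a ha
    obtain ⟨h1, h2, h3⟩ := hTmem a ha
    exact hV a.1 a.2 h1 h2
  have hinj : Set.InjOn (fun a : (_ : Fin q) × ℕ => V a.1 a.2) T := by
    intro a ha b hb hab
    obtain ⟨ha1, ha2, ha3⟩ := hTmem a ha
    obtain ⟨hb1, hb2, hb3⟩ := hTmem b hb
    obtain ⟨ha4, ha5⟩ := hVmem a ha
    obtain ⟨hb4, hb5⟩ := hVmem b hb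
    simp only at hab
    rw [← hab] at hb4 hb5
    have hp : a.2 = b.2 := eq_of_mem _ _ _ ha1 hb1 ha4 hb4
    have hj : a.1 = b.1 := by
      by_contra hne
      have h1 := two _ x (P a.1) (P b.1) ha5 hb5
      have h2 := dvd_of_mem _ _ ha1 ha4 _ h1
      exact ha3 (hdet _ _ hne _ ha1 h2)
    exact Sigma.ext hj (heq_of_eq hp)
  have hfin : {v : HeightOneSpectrum (𝓞 K) |
      ∃ j, v.valuation K (((P j).1 : K) - x * ((P j).2 : K)) < max (v.valuation K x) 1}.Finite := by
    have h1 : {v : HeightOneSpectrum (𝓞 K) |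
      ∃ j, v.valuation K (((P j).1 : K) - x * ((P j).2 : K)) < max (v.valuation K x) 1} =
      ⋃ j, {v : HeightOneSpectrum (𝓞 K) |
        v.valuation K (((P j).1 : K) - x * ((P j).2 : K)) < max (v.valuation K x) 1} := by
      ext v
      simp
    rw [h1]
    exact Set.finite_iUnion fun j => finite_support x _ (L_ne_zero x f (P j) hxf (hval j))
  unfold cnt
  rw [finsum_eq_sum_of_support_subset (s := hfin.toFinset)]
  · have h1 : Real.log (∏ j, (rho S' (value f (P j)) : ℝ)) = ∑ a ∈ T, Real.log a.2 := by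
      rw [Real.log_prod, hT, Finset.sum_sigma]
      · exact Finset.sum_congr rfl fun j _ => log_rho S' _
      · intro j _
        exact_mod_cast (Pool.Agent.H813R3.Voj.rho_pos S' _).ne'
    rw [h1]
    have h2 : ∀ a ∈ T, Real.log a.2 ≤ if (∀ p ∈ S, (p : 𝓞 K) ∉ (V a.1 a.2).asIdeal) ∧
      ∃ j, (V a.1 a.2).valuation K (((P j).1 : K) - x * ((P j).2 : K)) < max ((V a.1 a.2).valuation K x) 1
      then Real.log (Ideal.absNorm (V a.1 a.2).asIdeal) else 0 := by
      intro a ha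
      obtain ⟨ha1, ha2, ha3⟩ := hTmem a ha
      obtain ⟨ha4, ha5⟩ := hVmem a ha
      rw [if_pos]
      · exact log_le _ _ ha1 ha4
      · refine ⟨fun p hp hpv => ?_, ⟨a.1, ha5⟩⟩
        have hp' := hSS hp
        rw [eq_of_mem _ _ _ (hS' p hp') ha1 hpv ha4] at hp'
        exact ha3 hp'
    refine (Finset.sum_le_sum h2).trans ?_
    rw [← Finset.sum_image (f := fun v : HeightOneSpectrum (𝓞 K) =>
      if (∀ p ∈ S, (p : 𝓞 K) ∉ v.asIdeal) ∧
        ∃ j, v.valuation K (((P j).1 : K) - x * ((P j).2 : K)) < max (v.valuation K x) 1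
      then Real.log (Ideal.absNorm v.asIdeal) else 0) (g := fun a : (_ : Fin q) × ℕ => V a.1 a.2) hinj]
    apply Finset.sum_le_sum_of_subset_of_nonneg
    · intro v hv
      rw [Finset.mem_image] at hv
      obtain ⟨a, ha, rfl⟩ := hv
      rw [Set.Finite.mem_toFinset]
      exact ⟨a.1, (hVmem a ha).2⟩
    · intro v _ _
      split_ifs
      · exact Real.log_natCast_nonneg _
      · exact le_rfl
  · intro v hv
    rw [Function.mem_support] at hv
    rw [Set.Finite.coe_toFinset]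
    by_contra hcon
    apply hv
    rw [if_neg]
    rintro ⟨_, h⟩
    exact hcon h

end Pool.Agent.W598.VD.TR
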